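import Pool.Agent.H77.PUC2.Main

/-!
# The perfectoid universal cover is not a locally constant function of the curve (Q1)

Let `K` be a complete algebraically closed nonarchimedean field of characteristic `0` and residue
characteristic `p`, and `g ≥ 2`.  For `s ∈ K` let `C_s` be the smooth projective curve with affine charts
`y² + y = x^(2g+1) + s x` and `w² + u^(g+1) w = u + s u^(2g+1)` (`u = 1/x`, `w = y/x^(g+1)`), a
hyperelliptic curve of genus `g`.  Put `s₀ = 0` if `p ∤ 2g+1` and `s₀ = 1` otherwise.  For
`|s - s₀| < 1` the curve `C_s` is smooth, even with good reduction.

Theorem.  If `|s - s₀| < 1` and `s` is transcendental over `ℚ`, then the perfectoid universal covers of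
`C_s` and `C_{s₀}` are not isomorphic.  Such `s` are dense in the disc, and `[C_s]` tends to
`[C_{s₀}]` in `M_g(K)` as `s → s₀` (the `C_s` form a smooth family over the disc).  So
`[C] ↦ [universal cover of C]` is not locally constant on `M_g(K)`, for every such `K` and every `g ≥ 2`.

## The notion of isomorphism (`PUC2.UCIso`)

A curve is given by its function field `F / K`.  `UC K F` is the compositum, in an algebraic closure of
`F`, of all finite extensions of `F` unramified at all places, i.e. the union of the function fields of
the connected finite étale covers `C' → C` (pointed compatibly).  A `K`-point of the universal cover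
(the tilde-limit of the `C'`) is a compatible system of points of the `C'`, i.e. a `K`-place of `UC K F`
(`PUC.Place`).  `PUC.Dom K T`, `T` a finite set of elements of `UC K F`, is the set of points where all
`t ∈ T` are finite and of absolute value at most `1`: these sets form a basis of the topology of the
cover.  `PUC2.UCIso K F₁ F₂`: there is a bijection `φ` between the `K`-points such that `f ∘ φ` is
analytic for all `f ∈ UC K F₂`, and `f ∘ φ⁻¹` for all `f ∈ UC K F₁`.  Here `f ∘ φ` is called analytic
(`PUC.AnF`) if for every `ε > 0` there is a finite cover by sets `Dom K T` on each of which `f ∘ φ` or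
`1/f ∘ φ` is finite and within `ε` of some `g ∈ UC K F₁`.

Every isomorphism of perfectoid spaces over `K` between the universal covers gives such a bijection: the
covers are quasi-compact, the sets `Dom` are a basis, and by the definition of the tilde-limit (and
Runge's theorem on the curves `C'`) every function on an affinoid is a uniform limit of rational
functions on the `C'`.  So `¬ UCIso` implies that the universal covers are not isomorphic.

## Sketch of the proof

Let `φ` be an isomorphism.  Composing with a coordinate of `C_s` we get an analytic map `Φ` from the
universal cover of `C_{s₀}` to `C_s`.  By Galois descent (Ax's theorem) from the algebraic closure of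
`K(z)`, and an analysis of approximately rational functions on the projective line, every analytic
function on the cover whose oscillation is small is constant; with the differentials
`x^k dx / (2y + 1)` of the good reduction this shows that two analytic maps to `C_s` which are close to
each other agree.  So `Φ` is invariant under a subgroup of finite index of the Galois group, comes from
a finite extension `L` of `K(C_{s₀})` and is algebraic by a growth estimate; hence `K(C_s)` embeds into
a finite unramified extension of `K(C_{s₀})`.  A derivation of `K` with `∂ s = 1`, extended to `L` with
`∂ x₀ = 0`, preserves the integral functions as `C_{s₀}` is defined over `ℚ`, and evaluating the trace of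
`∂ξ` at the branch points gives a polynomial identity that does not hold.
-/

namespace Pool.Agent.Results.MP_43c69f_ag.NotLocallyConstant

open PUC

universe u

/-- For `K` of characteristic `0` and `g ≥ 2` there is a smooth curve `C_{s₀}` of genus `g` and, for
every `δ > 0`, a smooth curve `C_s` with `‖s - s₀‖ < δ` such that the universal covers of `C_{s₀}` and
`C_s` are not isomorphic; in fact this holds for all `s` with `‖s - s₀‖ < 1` that are transcendental
over `ℚ`.  (All function fields of `C_s` are isomorphic, and they exist by the third part.) -/
theorem result (K : Type u) [NontriviallyNormedField K] [IsUltrametricDist K] [CompleteSpace K]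
    [IsAlgClosed K] [CharZero K] (p : ℕ) (hp : p.Prime) (hpK : ‖(p : K)‖ < 1)
    (g : ℕ) (hg : 2 ≤ g) :
    ∃ s₀ : K,
      (∀ s : K, ‖s - s₀‖ < 1 → SmoothCharts K g s) ∧
      (∀ δ : ℝ, 0 < δ → ∃ s : K, ‖s - s₀‖ < δ ∧ Transcendental ℚ s) ∧
      (∀ s : K, ∃ (F : Type u) (_ : Field F) (_ : Algebra K F) (x y : F), IsCurve g s F x y) ∧
      (∀ s : K, ‖s - s₀‖ < 1 → Transcendental ℚ s →
        ∀ (F₀ F : Type u) [Field F₀] [Algebra K F₀] [Field F] [Algebra K F] (x₀ y₀ : F₀) (x y : F),
          IsCurve g s₀ F₀ x₀ y₀ → IsCurve g s F x y → ¬ PUC2.UCIso K F₀ F) :=
  PUC2.nlc K p hp hpK g hg

end Pool.Agent.Results.MP_43c69f_ag.NotLocallyConstant
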