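import Pool.Agent.H77.PUC2.Main

/-!
# Curves over `ℂ_p` with the same (good) reduction and different universal covers (Q2)

For `s ∈ O`, the ring of integers of `ℂ_p`, let `C_s` be the curve over `O` with affine charts
`y² + y = x^(2g+1) + s x` and `w² + u^(g+1) w = u + s u^(2g+1)` (`u = 1/x`, `w = y/x^(g+1)`).

Theorem.  For every prime `p` and every `g ≥ 2` there are `s, t ∈ O` with the same residue class such
that `C_s` and `C_t` are smooth over `O` (both generic fibres and the common special fibre are smooth
projective curves of genus `g`), and the perfectoid universal covers of the generic fibres are not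
isomorphic.

The stable models are `C_s` and `C_t` themselves, and their special fibres are the same curve; so the
answer to Q2 is no, for all `p` and all `g ≥ 2`, even for good reduction.

## The notion of isomorphism (`PUC2.UCIso`)

A curve is given by its function field `F / K` (`K = ℂ_p`).  `UC K F` is the compositum, in an algebraic
closure of `F`, of all finite extensions of `F` unramified at all places, i.e. the union of the function
fields of the connected finite étale covers `C' → C` (pointed compatibly).  A `K`-point of the universal
cover (the tilde-limit of the `C'`) is a compatible system of points of the `C'`, i.e. a `K`-place of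
`UC K F` (`PUC.Place`).  `PUC.Dom K T`, `T` a finite set of elements of `UC K F`, is the set of points
where all `t ∈ T` are finite and of absolute value at most `1`: these sets form a basis of the topology
of the cover.  `PUC2.UCIso K F₁ F₂`: there is a bijection `φ` between the `K`-points such that `f ∘ φ` is
analytic for all `f ∈ UC K F₂`, and `f ∘ φ⁻¹` for all `f ∈ UC K F₁`.  Here `f ∘ φ` is called analytic
(`PUC.AnF`) if for every `ε > 0` there is a finite cover by sets `Dom K T` on each of which `f ∘ φ` or
`1/f ∘ φ` is finite and within `ε` of some `g ∈ UC K F₁`.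

Every isomorphism of perfectoid spaces over `K` between the universal covers gives such a bijection: the
covers are quasi-compact, the sets `Dom` are a basis, and by the definition of the tilde-limit (and
Runge's theorem on the curves `C'`) every function on an affinoid is a uniform limit of rational
functions on the `C'`.  So `¬ UCIso` implies that the universal covers are not isomorphic.
The proof is sketched in `NotLocallyConstant.lean`.
-/

namespace Pool.Agent.Results.MP_43c69f_ag.SameReduction

open PUC

/-- For every prime `p` and `g ≥ 2` there are `s, t` in the ring of integers of `ℂ_p` with equal residue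
classes such that the curves `C_s`, `C_t` over `ℂ_p` are smooth, their common reduction is smooth, and
their universal covers are not isomorphic. -/
theorem result (p : ℕ) [Fact p.Prime] (g : ℕ) (hg : 2 ≤ g) :
    ∃ s t : 𝓞_ℂ_[p],
      SmoothCharts ℂ_[p] g (s : ℂ_[p]) ∧ SmoothCharts ℂ_[p] g (t : ℂ_[p]) ∧
      IsLocalRing.residue 𝓞_ℂ_[p] s = IsLocalRing.residue 𝓞_ℂ_[p] t ∧
      SmoothCharts (IsLocalRing.ResidueField 𝓞_ℂ_[p]) g (IsLocalRing.residue 𝓞_ℂ_[p] s) ∧
      (∃ (F : Type) (_ : Field F) (_ : Algebra ℂ_[p] F) (x y : F), IsCurve g (s : ℂ_[p]) F x y) ∧
      (∃ (F : Type) (_ : Field F) (_ : Algebra ℂ_[p] F) (x y : F), IsCurve g (t : ℂ_[p]) F x y) ∧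
      ∀ (F₁ F₂ : Type) [Field F₁] [Algebra ℂ_[p] F₁] [Field F₂] [Algebra ℂ_[p] F₂]
        (x₁ y₁ : F₁) (x₂ y₂ : F₂), IsCurve g (s : ℂ_[p]) F₁ x₁ y₁ →
          IsCurve g (t : ℂ_[p]) F₂ x₂ y₂ → ¬ PUC2.UCIso ℂ_[p] F₁ F₂ :=
  PUC2.sred p g hg

end Pool.Agent.Results.MP_43c69f_ag.SameReduction
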